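import Pool.Agent.K3h75.TO.StmA

/-!
# Brick JAC: the Jacobian condition for binomials and differences of monomials
-/

set_option autoImplicit false

namespace Pool.Agent.K3h9.TO

open MvPolynomial Module Pool.Agent.K3h75.TO

section aux

variable {O : Type} [CommRing O] {n : ℕ} (Q : Ideal (MvPolynomial (Fin n) O)) [Q.IsPrime]

lemma mon_notMem (s : Fin n →₀ ℕ) (hs : ∀ i, (X i : MvPolynomial (Fin n) O) ∈ Q → s i = 0) :
    monomial s (1 : O) ∉ Q := by
  intro h
  rw [monomial_eq, C_1, one_mul, Finsupp.prod, Ideal.IsPrime.prod_mem_iff] at h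
  obtain ⟨i, hi, h2⟩ := h
  have h3 := Ideal.IsPrime.mem_of_pow_mem (inferInstance : Q.IsPrime) _ h2
  exact (Finsupp.mem_support_iff.mp hi) (hs i h3)

lemma pderiv_mon_zero (s : Fin n →₀ ℕ) (l : Fin n) (x : O) (h : s l = 0) :
    pderiv l (monomial s x) = 0 := by
  rw [pderiv_monomial, h]
  simp

end aux

section lat

variable {Λ : Type} [AddCommGroup Λ] {n : ℕ} (b : Basis (Fin n) ℤ Λ)

lemma Sp_dl (τ : Λ →+ Λ) (I : Set (Fin n)) (hτ : ∀ a, Sp b I a → Sp b I (τ a)) (a : Λ)
    (ha : Sp b I a) : Sp b I (dl τ a) := by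
  intro i hi
  have h1 := hτ a ha i hi
  have h2 := ha i hi
  simp [dl, map_sub, h1, h2]

lemma Sp_iter (τ : Λ →+ Λ) (I : Set (Fin n)) (hτ : ∀ a, Sp b I a → Sp b I (τ a)) (k : ℕ) :
    ∀ (a : Λ), Sp b I a → Sp b I ((dl τ)^[k] a) := by
  induction k with
  | zero => intro a ha; simpa using ha
  | succ k ih =>
    intro a ha
    rw [Function.iterate_succ_apply']
    exact Sp_dl b τ I hτ _ (ih a ha)

lemma ps_apply (a : Λ) (l : Fin n) : ps b a l = (b.repr a l).toNat := by
  simp [ps]

lemma ps_neg_apply (a : Λ) (l : Fin n) : ps b (-a) l = (-(b.repr a l)).toNat := by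
  simp [ps]

/-- dual vectors modulo `p` -/
lemma exists_dual {ι : Type} [Fintype ι] [DecidableEq ι] (p : ℕ) (hp : p.Prime) (v : ι → Λ)
    (hind : ∀ c : ι → ℤ, (∃ κ : Λ, ∑ i, c i • v i = (p : ℤ) • κ) → ∀ i, (p : ℤ) ∣ c i)
    (i0 : ι) : ∃ w : Fin n → ℤ, ∀ i, (p : ℤ) ∣ (∑ l, b.repr (v i) l * w l) -
      (if i = i0 then 1 else 0) := by
  have : Fact p.Prime := ⟨hp⟩
  -- the vectors modulo p
  let V : ι → (Fin n → ZMod p) := fun i l => ((b.repr (v i) l : ℤ) : ZMod p)
  have hV : LinearIndependent (ZMod p) V := by
    rw [Fintype.linearIndependent_iff]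
    intro c hc i
    have h1 : ∀ l, (p : ℤ) ∣ ∑ i, ((c i).val : ℤ) * b.repr (v i) l := by
      intro l
      have h2 := congrFun hc l
      rw [← ZMod.intCast_zmod_eq_zero_iff_dvd]
      push_cast
      simp only [Finset.sum_apply, Pi.smul_apply, smul_eq_mul, Pi.zero_apply, V] at h2
      rw [← h2]
      refine Finset.sum_congr rfl fun i _ => ?_
      rw [ZMod.natCast_val, ZMod.cast_id]
    choose d hd using h1
    have h3 : ∃ κ : Λ, ∑ i, ((c i).val : ℤ) • v i = (p : ℤ) • κ := by
      refine ⟨∑ l, d l • b l, ?_⟩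
      apply b.repr.injective
      ext l
      rw [map_sum, map_smul, map_sum]
      simp only [map_smul, Finsupp.coe_finsetSum, Finset.sum_apply, Finsupp.smul_apply,
        smul_eq_mul, Basis.repr_self, Finsupp.smul_single, mul_one]
      rw [hd l]
      congr 1
      rw [Finset.sum_eq_single l]
      · simp
      · intro l' _ hl'
        simp [hl']
      · simp
    have h4 := hind _ h3 i
    have h5 : ((c i).val : ZMod p) = 0 := by
      have := (ZMod.intCast_zmod_eq_zero_iff_dvd ((c i).val : ℤ) p).mpr h4
      simpa using this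
    rwa [ZMod.natCast_val, ZMod.cast_id] at h5
  obtain ⟨f, hf⟩ := LinearMap.exists_leftInverse_of_injective
    (Finsupp.linearCombination (ZMod p) V) (LinearMap.ker_eq_bot.mpr hV)
  have hfV : ∀ i, f (V i) i0 = if i = i0 then 1 else 0 := by
    intro i
    have h1 := LinearMap.congr_fun hf (Finsupp.single i 1)
    simp only [LinearMap.comp_apply, Finsupp.linearCombination_single, one_smul,
      LinearMap.id_apply] at h1
    rw [h1, Finsupp.single_apply]
  refine ⟨fun l => ((f (Pi.single l 1) i0).val : ℤ), fun i => ?_⟩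
  rw [← ZMod.intCast_zmod_eq_zero_iff_dvd]
  push_cast
  have h2 : V i = ∑ l, V i l • (Pi.single l (1 : ZMod p) : Fin n → ZMod p) := by
    ext l
    simp [Finset.sum_apply, Pi.single_apply]
  have h3 : f (V i) i0 = ∑ l, V i l * f (Pi.single l 1) i0 := by
    conv_lhs => rw [h2]
    rw [map_sum]
    simp [Finsupp.finsetSum_apply]
  rw [hfV i] at h3
  rw [sub_eq_zero]
  have h4 : ∑ l, ((b.repr (v i) l : ℤ) : ZMod p) * ((f (Pi.single l 1) i0).val : ZMod p) =
      ∑ l, V i l * f (Pi.single l 1) i0 := by
    refine Finset.sum_congr rfl fun l _ => ?_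
    rw [ZMod.natCast_val, ZMod.cast_id]
  rw [h4, ← h3]

end lat

/-- **JAC** -/
theorem t_JAC : S_JAC := by
  classical
  intro O Λ _ _ _ n b τ p hp Q _ hpQ I hI hτ r g hg hbin m ψ hψout hψinj e he1 he0 c c' H
  have hp2 : 2 ≤ p := hp.two_le
  have hI' : ∀ i, (X i : MvPolynomial (Fin n) O) ∈ Q → i ∉ I := by
    intro i h1 h2
    exact (hI i).mp h2 h1
  -- derivatives of the binomials outside `I` vanish
  have hbin0 : ∀ (κ : Λ), Sp b I κ → ∀ l, l ∉ I → pderiv l (bin O b κ) = 0 := by
    intro κ hκ l hl
    have h1 := hκ l hl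
    rw [bin, map_sub, pderiv_mon_zero _ _ _ (by rw [ps_apply, h1]; rfl),
      pderiv_mon_zero _ _ _ (by rw [ps_neg_apply, h1]; rfl), sub_zero]
  have hSp : ∀ (i : Fin r) (a : ℕ), Sp b I ((dl τ)^[a] (g i)) := fun i a =>
    Sp_iter b τ I hτ a (g i) (hg.sp i)
  -- part (1)
  have hc' : ∀ j a, c' j a ∈ Q := by
    intro j
    have main : ∀ t : ℕ, ∀ a : Fin (p - 1), p - 1 - a.val ≤ t → c' j a ∈ Q := by
      intro t
      induction t with
      | zero =>
        intro a ha
        have := a.isLt
        omega
      | succ t ih =>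
        intro a0 ha0
        have ha0p := a0.isLt
        set k : ℕ := a0.val + 1 with hk
        have hkp : k < p := by omega
        have hl : ψ j k ∉ I := hψout j k hkp
        have h1 := H (ψ j k)
        -- the derivative of tt
        have htt : ∀ (j' : Fin m) (a : Fin (p - 1)), pderiv (ψ j k) (tt O (e j') (a.val + 1)) =
            if j' = j then
              (if k ≤ a.val + 1 then
                monomial (e j k - Finsupp.single (ψ j k) 1)
                  ((-1) ^ (a.val + 1 - k) * ((a.val + 1).choose k : O)) else 0) else 0 := by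
          intro j' a
          have hap := a.isLt
          rw [tt, map_sum]
          have h2 : ∀ k' ∈ Finset.range (a.val + 1 + 1), pderiv (ψ j k)
              (monomial (e j' k') ((-1) ^ (a.val + 1 - k') * ((a.val + 1).choose k' : O))) =
              if j' = j ∧ k' = k then
                monomial (e j k - Finsupp.single (ψ j k) 1)
                  ((-1) ^ (a.val + 1 - k) * ((a.val + 1).choose k : O)) else 0 := by
            intro k' hk'
            rw [Finset.mem_range] at hk'
            have hk'p : k' < p := by omega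
            split_ifs with h3
            · obtain ⟨rfl, rfl⟩ := h3
              rw [pderiv_monomial, he1 j' k hkp]
              simp
            · apply pderiv_mon_zero
              apply he0 j' k' hk'p _ hl
              intro h4
              apply h3
              obtain ⟨h5, h6⟩ := hψinj j k j' k' hkp hk'p h4
              exact ⟨h5.symm, h6.symm⟩
          rw [Finset.sum_congr rfl h2]
          by_cases hj : j' = j
          · simp only [hj, true_and, if_true]
            rw [Finset.sum_ite_eq']
            simp only [Finset.mem_range]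
            by_cases hka : k ≤ a.val + 1
            · rw [if_pos (by omega), if_pos hka]
            · rw [if_neg (by omega), if_neg hka]
          · simp [hj]
        have hmon : monomial (e j k - Finsupp.single (ψ j k) 1) (1 : O) ∉ Q := by
          apply mon_notMem
          intro i hi
          have hi' := hI' i hi
          by_cases h3 : i = ψ j k
          · subst h3
            simp [Finsupp.tsub_apply, he1 j k hkp]
          · simp [Finsupp.tsub_apply, he0 j k hkp i hi' h3]
        have h2 : (∑ i, ∑ a : Fin (p - 1), c i a *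
            pderiv (ψ j k) (bin O b ((dl τ)^[a.val] (g i)))) = 0 := by
          apply Finset.sum_eq_zero
          intro i _
          apply Finset.sum_eq_zero
          intro a _
          rw [hbin0 _ (hSp i a) _ hl, mul_zero]
        rw [h2, zero_add] at h1
        have h3 : (∑ j', ∑ a : Fin (p - 1), c' j' a * pderiv (ψ j k) (tt O (e j') (a.val + 1))) =
            ∑ a : Fin (p - 1), c' j a * (if k ≤ a.val + 1 then
                monomial (e j k - Finsupp.single (ψ j k) 1)
                  ((-1) ^ (a.val + 1 - k) * ((a.val + 1).choose k : O)) else 0) := by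
          rw [Finset.sum_eq_single j]
          · refine Finset.sum_congr rfl fun a _ => ?_
            rw [htt j a, if_pos rfl]
          · intro j' _ hj'
            apply Finset.sum_eq_zero
            intro a _
            rw [htt j' a, if_neg hj', mul_zero]
          · intro h; exact absurd (Finset.mem_univ _) h
        rw [h3] at h1
        have h4 : (∑ a ∈ Finset.univ.erase a0, c' j a * (if k ≤ a.val + 1 then
                monomial (e j k - Finsupp.single (ψ j k) 1)
                  ((-1) ^ (a.val + 1 - k) * ((a.val + 1).choose k : O)) else 0)) ∈ Q := by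
          apply Q.sum_mem
          intro a ha
          have hne : a ≠ a0 := (Finset.mem_erase.mp ha).1
          have hne' : a.val ≠ a0.val := fun h => hne (Fin.ext h)
          by_cases hka : k ≤ a.val + 1
          · have := ih a (by omega)
            exact Q.mul_mem_right _ this
          · rw [if_neg hka, mul_zero]
            exact Q.zero_mem
        rw [← Finset.add_sum_erase _ _ (Finset.mem_univ a0)] at h1
        have h5 := (Q.add_mem_iff_left h4).mp h1
        rw [if_pos (by omega)] at h5
        have h6 : ((-1 : O) ^ (a0.val + 1 - k) * ((a0.val + 1).choose k : O)) = 1 := by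
          rw [hk]; simp
        rw [h6] at h5
        exact ((inferInstance : Q.IsPrime).mem_or_mem h5).resolve_right hmon
    intro a
    exact main (p - 1 - a.val) a le_rfl
  refine ⟨?_, hc'⟩
  -- part (2)
  let κ : Fin r × Fin (p - 1) → Λ := fun x => (dl τ)^[x.2.val] (g x.1)
  let M : Fin r × Fin (p - 1) → MvPolynomial (Fin n) O := fun x => monomial (ps b (κ x)) 1
  have hM : ∀ x, M x ∉ Q := by
    intro x
    apply mon_notMem
    intro i hi
    rw [ps_apply, hSp x.1 x.2.val i (hI' i hi)]
    rfl
  have hrel : ∀ l, ∑ x, ((b.repr (κ x) l : ℤ) : MvPolynomial (Fin n) O) * (c x.1 x.2 * M x) ∈ Q := by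
    intro l
    by_cases hl : l ∈ I
    · have h1 := Q.mul_mem_left (X l) (H l)
      have h2 : (X l : MvPolynomial (Fin n) O) *
          (∑ j, ∑ a : Fin (p - 1), c' j a * pderiv l (tt O (e j) (a.val + 1))) ∈ Q := by
        apply Q.mul_mem_left
        apply Q.sum_mem
        intro j _
        apply Q.sum_mem
        intro a _
        exact Q.mul_mem_right _ (hc' j a)
      rw [mul_add] at h1
      have h3 := (Q.add_mem_iff_left h2).mp h1
      have h4 : (X l : MvPolynomial (Fin n) O) *
          (∑ i, ∑ a : Fin (p - 1), c i a * pderiv l (bin O b ((dl τ)^[a.val] (g i)))) =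
          ∑ x : Fin r × Fin (p - 1), c x.1 x.2 * (X l * pderiv l (bin O b (κ x))) := by
        rw [Fintype.sum_prod_type, Finset.mul_sum]
        refine Finset.sum_congr rfl fun i _ => ?_
        rw [Finset.mul_sum]
        refine Finset.sum_congr rfl fun a _ => ?_
        show _ = c i a * (X l * pderiv l (bin O b ((dl τ)^[a.val] (g i))))
        ring
      rw [h4] at h3
      have h5 : ∑ x, ((b.repr (κ x) l : ℤ) : MvPolynomial (Fin n) O) * (c x.1 x.2 * M x) -
          ∑ x : Fin r × Fin (p - 1), c x.1 x.2 * (X l * pderiv l (bin O b (κ x))) ∈ Q := by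
        rw [← Finset.sum_sub_distrib]
        apply Q.sum_mem
        intro x _
        have h6 : X l * pderiv l (bin O b (κ x)) =
            (ps b (κ x) l : MvPolynomial (Fin n) O) * M x -
              (ps b (-(κ x)) l : MvPolynomial (Fin n) O) * monomial (ps b (-(κ x))) 1 := by
          rw [bin, map_sub, mul_sub, X_mul_pderiv_monomial, X_mul_pderiv_monomial,
            nsmul_eq_mul, nsmul_eq_mul]
        have h7 : ((b.repr (κ x) l : ℤ) : MvPolynomial (Fin n) O) =
            (ps b (κ x) l : MvPolynomial (Fin n) O) -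
              (ps b (-(κ x)) l : MvPolynomial (Fin n) O) := by
          rw [ps_apply, ps_neg_apply]
          have : (b.repr (κ x) l : ℤ) = ((b.repr (κ x) l).toNat : ℤ) -
              ((-(b.repr (κ x) l)).toNat : ℤ) := by omega
          conv_lhs => rw [this]
          push_cast
          ring
        have h8 : ((b.repr (κ x) l : ℤ) : MvPolynomial (Fin n) O) * (c x.1 x.2 * M x) -
            c x.1 x.2 * (X l * pderiv l (bin O b (κ x))) =
            -(c x.1 x.2 * (ps b (-(κ x)) l : MvPolynomial (Fin n) O)) * bin O b (κ x) := by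
          rw [h6, h7, bin]
          ring
        rw [h8]
        exact Q.mul_mem_left _ (hbin x.1 x.2)
      have h9 := Q.add_mem h5 h3
      simpa using h9
    · have h1 : ∀ x, ((b.repr (κ x) l : ℤ) : MvPolynomial (Fin n) O) * (c x.1 x.2 * M x) = 0 := by
        intro x
        rw [hSp x.1 x.2.val l hl]
        simp
      rw [Finset.sum_congr rfl (fun x _ => h1 x)]
      simp
  intro i0 a0
  obtain ⟨w, hw⟩ := exists_dual b p hp κ (by
    intro z hz x
    refine hg.ind (fun i a => z (i, a)) ?_ x.1 x.2
    obtain ⟨μ, hμ⟩ := hz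
    refine ⟨μ, ?_⟩
    rw [← hμ, Fintype.sum_prod_type]) (i0, a0)
  have h1 : ∑ l, ((w l : ℤ) : MvPolynomial (Fin n) O) *
      (∑ x, ((b.repr (κ x) l : ℤ) : MvPolynomial (Fin n) O) * (c x.1 x.2 * M x)) ∈ Q := by
    apply Q.sum_mem
    intro l _
    exact Q.mul_mem_left _ (hrel l)
  have h2 : ∑ l, ((w l : ℤ) : MvPolynomial (Fin n) O) *
      (∑ x, ((b.repr (κ x) l : ℤ) : MvPolynomial (Fin n) O) * (c x.1 x.2 * M x)) =
      ∑ x, ((∑ l, b.repr (κ x) l * w l : ℤ) : MvPolynomial (Fin n) O) * (c x.1 x.2 * M x) := by
    simp_rw [Finset.mul_sum]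
    rw [Finset.sum_comm]
    refine Finset.sum_congr rfl fun x _ => ?_
    push_cast
    rw [Finset.sum_mul]
    refine Finset.sum_congr rfl fun l _ => ?_
    ring
  rw [h2] at h1
  have hpQ' : ((p : ℤ) : MvPolynomial (Fin n) O) ∈ Q := by
    have : ((p : ℤ) : MvPolynomial (Fin n) O) = C (p : O) := by
      rw [map_natCast]; push_cast; rfl
    rw [this]; exact hpQ
  have h3 : ∑ x, ((∑ l, b.repr (κ x) l * w l : ℤ) : MvPolynomial (Fin n) O) *
      (c x.1 x.2 * M x) - ∑ x, ((if x = (i0, a0) then (1 : ℤ) else 0 : ℤ) :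
        MvPolynomial (Fin n) O) * (c x.1 x.2 * M x) ∈ Q := by
    rw [← Finset.sum_sub_distrib]
    apply Q.sum_mem
    intro x _
    rw [← sub_mul, ← Int.cast_sub]
    obtain ⟨d, hd⟩ := hw x
    rw [hd, Int.cast_mul, mul_assoc]
    exact Q.mul_mem_right _ hpQ'
  have h4 : ∑ x, ((if x = (i0, a0) then (1 : ℤ) else 0 : ℤ) :
        MvPolynomial (Fin n) O) * (c x.1 x.2 * M x) = c i0 a0 * M (i0, a0) := by
    rw [Finset.sum_eq_single (i0, a0)]
    · simp
    · intro x _ hx
      simp [hx]
    · intro h; exact absurd (Finset.mem_univ _) h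
  have h5 : c i0 a0 * M (i0, a0) ∈ Q := by
    rw [h4] at h3
    have := Q.sub_mem h1 h3
    simpa using this
  exact ((inferInstance : Q.IsPrime).mem_or_mem h5).resolve_right (hM _)

end Pool.Agent.K3h9.TO
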