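import Mathlib

/-!
# Radial solutions: averages, smoothness, and the fixed point
-/

set_option autoImplicit false
open MeasureTheory Filter Topology Set Metric

namespace Pool.Agent.K3h9.GAH

/-! ### averages -/

lemma cont_avg (g : ℝ → ℝ) (hg : Continuous g) (k : ℕ) :
    Continuous (fun x => ∫ l in (0:ℝ)..1, l ^ k * g (l * x)) := by
  apply intervalIntegral.continuous_parametric_intervalIntegral_of_continuous'
  have : Continuous (fun p : ℝ × ℝ => p.2 ^ k * g (p.2 * p.1)) := by fun_prop
  exact this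

lemma deriv_avg (g : ℝ → ℝ) (hg : ContDiff ℝ 1 g) (k : ℕ) (x : ℝ) :
    HasDerivAt (fun x => ∫ l in (0:ℝ)..1, l ^ k * g (l * x))
      (∫ l in (0:ℝ)..1, l ^ (k + 1) * deriv g (l * x)) x := by
  have hg' : Continuous (deriv g) := hg.continuous_deriv le_rfl
  have hgd : Differentiable ℝ g := hg.differentiable (by norm_num)
  obtain ⟨C, hC⟩ := (isCompact_Icc (a := -(|x| + 1)) (b := |x| + 1)).exists_bound_of_continuousOn
    hg'.continuousOn
  have key := intervalIntegral.hasDerivAt_integral_of_dominated_loc_of_deriv_le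
    (μ := volume) (a := (0:ℝ)) (b := 1) (x₀ := x) (s := ball x 1)
    (F := fun x l => l ^ k * g (l * x)) (F' := fun x l => l ^ (k + 1) * deriv g (l * x))
    (bound := fun _ => C) (ball_mem_nhds x one_pos) ?_ ?_ ?_ ?_ ?_ ?_
  · exact key.2
  · refine Filter.Eventually.of_forall fun y => ?_
    exact (Continuous.aestronglyMeasurable (by fun_prop))
  · exact Continuous.intervalIntegrable (by fun_prop) _ _
  · exact (Continuous.aestronglyMeasurable (by fun_prop))
  · refine Filter.Eventually.of_forall fun l hl y hy => ?_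
    rw [uIoc_of_le zero_le_one] at hl
    have hy' : |y| ≤ |x| + 1 := by
      have h1 : |y - x| < 1 := by simpa [Real.dist_eq] using hy
      have h2 : |y| ≤ |y - x| + |x| := by
        have := abs_add_le (y - x) x
        simpa using this
      linarith
    have hly : |l * y| ≤ |x| + 1 := by
      rw [abs_mul, abs_of_pos hl.1]
      nlinarith [abs_nonneg y, hl.2, hl.1]
    have h3 := hC (l * y) ⟨(abs_le.mp hly).1, (abs_le.mp hly).2⟩
    rw [norm_mul]
    have h4 : ‖l ^ (k + 1)‖ ≤ 1 := by
      rw [norm_pow, Real.norm_eq_abs, abs_of_pos hl.1]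
      exact pow_le_one₀ hl.1.le hl.2
    calc ‖l ^ (k + 1)‖ * ‖deriv g (l * y)‖ ≤ 1 * C :=
          mul_le_mul h4 h3 (norm_nonneg _) zero_le_one
      _ = C := one_mul C
  · exact continuous_const.intervalIntegrable _ _
  · refine Filter.Eventually.of_forall fun l _ y _ => ?_
    have h1 : HasDerivAt g (deriv g (l * y)) (l * y) := (hgd (l * y)).hasDerivAt
    have h2 : HasDerivAt (fun y : ℝ => l * y) l y := by
      simpa using (hasDerivAt_id y).const_mul l
    have h3 := (h1.comp y h2).const_mul (l ^ k)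
    have h4 : l ^ k * (deriv g (l * y) * l) = l ^ (k + 1) * deriv g (l * y) := by ring
    rw [h4] at h3
    exact h3

lemma smooth_avg (n : ℕ) : ∀ (k : ℕ) (g : ℝ → ℝ), ContDiff ℝ n g →
    ContDiff ℝ n (fun x => ∫ l in (0:ℝ)..1, l ^ k * g (l * x)) := by
  induction n with
  | zero =>
    intro k g hg
    have hg' : Continuous g := hg.continuous
    have := cont_avg g hg' k
    exact contDiff_zero.mpr this
  | succ n ih =>
    intro k g hg
    have h1 : ContDiff ℝ 1 g := hg.of_le (by exact_mod_cast Nat.le_add_left 1 n)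
    have hd : ∀ x, HasDerivAt (fun x => ∫ l in (0:ℝ)..1, l ^ k * g (l * x))
      (∫ l in (0:ℝ)..1, l ^ (k + 1) * deriv g (l * x)) x := deriv_avg g h1 k
    have hgd : ContDiff ℝ n (deriv g) := by
      have : ContDiff ℝ ((n : WithTop ℕ∞) + 1) g := by exact_mod_cast hg
      exact (contDiff_succ_iff_deriv.mp this).2.2
    have : ContDiff ℝ ((n : WithTop ℕ∞) + 1)
        (fun x => ∫ l in (0:ℝ)..1, l ^ k * g (l * x)) := by
      rw [contDiff_succ_iff_deriv]
      refine ⟨fun x => (hd x).differentiableAt, by simp, ?_⟩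
      have h2 : deriv (fun x => ∫ l in (0:ℝ)..1, l ^ k * g (l * x)) =
          fun x => ∫ l in (0:ℝ)..1, l ^ (k + 1) * deriv g (l * x) := by
        funext x
        exact (hd x).deriv
      rw [h2]
      exact ih (k + 1) (deriv g) hgd
    exact_mod_cast this

/-! ### the fixed point -/

lemma int_cosh_bound (L M : ℝ) (hL : 0 < L) (hM : 0 ≤ M) (g : ℝ → ℝ)
    (hg : ∀ x, |g x| ≤ M * Real.cosh (L * x)) (s : ℝ) :
    |∫ x in (0:ℝ)..s, g x| ≤ M / L * Real.cosh (L * s) := by
  have hc : Continuous (fun x => M * Real.cosh (L * x)) :=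
    continuous_const.mul (Real.continuous_cosh.comp (continuous_const.mul continuous_id))
  have h1 : ‖∫ x in (0:ℝ)..s, g x‖ ≤ |∫ x in (0:ℝ)..s, M * Real.cosh (L * x)| :=
    intervalIntegral.norm_integral_le_abs_of_norm_le
      (Filter.Eventually.of_forall fun t => hg t) (hc.intervalIntegrable _ _)
  have h2 : ∫ x in (0:ℝ)..s, M * Real.cosh (L * x) = M / L * Real.sinh (L * s) := by
    have hd : ∀ x ∈ uIcc (0:ℝ) s, HasDerivAt (fun x => M / L * Real.sinh (L * x))
        (M * Real.cosh (L * x)) x := by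
      intro x _
      have h3 : HasDerivAt (fun x : ℝ => L * x) L x := by
        simpa using (hasDerivAt_id x).const_mul L
      have h4 := ((Real.hasDerivAt_sinh (L * x)).comp x h3).const_mul (M / L)
      have h5 : M / L * (Real.cosh (L * x) * L) = M * Real.cosh (L * x) := by
        field_simp
      rw [h5] at h4
      exact h4
    rw [intervalIntegral.integral_eq_sub_of_hasDerivAt hd (hc.intervalIntegrable _ _)]
    simp
  rw [h2, abs_mul, abs_of_nonneg (div_nonneg hM hL.le)] at h1
  refine h1.trans (mul_le_mul_of_nonneg_left ?_ (div_nonneg hM hL.le))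
  rw [abs_le]
  constructor
  · have := Real.cosh_add_sinh (L * s)
    have h6 := Real.exp_pos (L * s)
    linarith
  · exact (Real.sinh_lt_cosh (L * s)).le

lemma cosh_scale (L l x : ℝ) (h0 : 0 ≤ l) (h1 : l ≤ 1) :
    Real.cosh (L * (l * x)) ≤ Real.cosh (L * x) := by
  rw [Real.cosh_le_cosh]
  have : L * (l * x) = l * (L * x) := by ring
  rw [this, abs_mul, abs_of_nonneg h0]
  have := abs_nonneg (L * x)
  nlinarith

open BoundedContinuousFunction in
/-- Global solution of `w(s) = w0 + (1/4) ∫_0^s ∫_0^1 F(w(l x)) dl dx`. -/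
theorem exists_radial (F : ℝ → ℝ) (hF : Continuous F) (B Λ : ℝ) (hB : ∀ w, |F w| ≤ B)
    (hΛ : ∀ v w, |F v - F w| ≤ Λ * |v - w|) (w0 : ℝ) :
    ∃ w : ℝ → ℝ, Continuous w ∧ ∀ s, w s = w0 + 1 / 4 * ∫ x in (0:ℝ)..s,
      ∫ l in (0:ℝ)..1, F (w (l * x)) := by
  have hB0 : 0 ≤ B := (abs_nonneg _).trans (hB 0)
  have hΛ0 : 0 ≤ Λ := by
    have := hΛ 1 0
    have h2 := abs_nonneg (F 1 - F 0)
    simp at this
    linarith
  set L : ℝ := Λ + 1 with hLdef
  have hL : 0 < L := by linarith
  -- the inner function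
  let I : (ℝ →ᵇ ℝ) → ℝ → ℝ := fun u x =>
    ∫ l in (0:ℝ)..1, F (w0 + Real.cosh (L * (l * x)) * u (l * x))
  have hIc : ∀ u, Continuous (I u) := by
    intro u
    apply intervalIntegral.continuous_parametric_intervalIntegral_of_continuous'
    have hu := u.continuous
    have : Continuous (fun p : ℝ × ℝ =>
        F (w0 + Real.cosh (L * (p.2 * p.1)) * u (p.2 * p.1))) := by
      apply hF.comp
      apply continuous_const.add
      apply Continuous.mul
      · exact Real.continuous_cosh.comp (by fun_prop)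
      · exact hu.comp (by fun_prop)
    exact this
  have hIb : ∀ u x, |I u x| ≤ B := by
    intro u x
    have := intervalIntegral.norm_integral_le_of_norm_le_const (a := (0:ℝ)) (b := 1) (C := B)
      (f := fun l => F (w0 + Real.cosh (L * (l * x)) * u (l * x))) (fun l _ => hB _)
    simpa using this
  have hSc : ∀ u, Continuous (fun s => ∫ x in (0:ℝ)..s, I u x) := by
    intro u
    exact intervalIntegral.continuous_primitive
      (fun a b => (hIc u).intervalIntegrable a b) 0
  have hTc : ∀ u, Continuous (fun s => (Real.cosh (L * s))⁻¹ *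
      (1 / 4 * ∫ x in (0:ℝ)..s, I u x)) := by
    intro u
    apply Continuous.mul
    · apply Continuous.inv₀
      · exact Real.continuous_cosh.comp (by fun_prop)
      · intro s
        exact (Real.cosh_pos _).ne'
    · exact continuous_const.mul (hSc u)
  have hTb : ∀ u s, ‖(Real.cosh (L * s))⁻¹ * (1 / 4 * ∫ x in (0:ℝ)..s, I u x)‖ ≤
      1 / 4 * (B / L) := by
    intro u s
    have h1 : |∫ x in (0:ℝ)..s, I u x| ≤ B / L * Real.cosh (L * s) := by
      apply int_cosh_bound L B hL hB0
      intro x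
      have := Real.one_le_cosh (L * x)
      have h2 := hIb u x
      nlinarith
    have hc := Real.cosh_pos (L * s)
    rw [Real.norm_eq_abs, abs_mul, abs_mul, abs_of_pos (inv_pos.mpr hc),
      abs_of_pos (by norm_num : (0:ℝ) < 1 / 4)]
    calc (Real.cosh (L * s))⁻¹ * (1 / 4 * |∫ x in (0:ℝ)..s, I u x|)
        ≤ (Real.cosh (L * s))⁻¹ * (1 / 4 * (B / L * Real.cosh (L * s))) := by gcongr
      _ = 1 / 4 * (B / L) := by field_simp
  let T : (ℝ →ᵇ ℝ) → (ℝ →ᵇ ℝ) := fun u =>
    BoundedContinuousFunction.ofNormedAddCommGroup _ (hTc u) (1 / 4 * (B / L)) (hTb u)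
  have hT : ContractingWith (1 / 4) T := by
    refine ⟨by norm_num, LipschitzWith.of_dist_le_mul fun u v => ?_⟩
    rw [BoundedContinuousFunction.dist_le (by positivity)]
    intro s
    have hd0 : 0 ≤ dist u v := dist_nonneg
    have e1 : T u s = (Real.cosh (L * s))⁻¹ * (1 / 4 * ∫ x in (0:ℝ)..s, I u x) := rfl
    have e2 : T v s = (Real.cosh (L * s))⁻¹ * (1 / 4 * ∫ x in (0:ℝ)..s, I v x) := rfl
    rw [e1, e2, Real.dist_eq, ← mul_sub, ← mul_sub,
      ← intervalIntegral.integral_sub ((hIc u).intervalIntegrable _ _)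
        ((hIc v).intervalIntegrable _ _)]
    have hdiff : ∀ x, |I u x - I v x| ≤ (Λ * dist u v) * Real.cosh (L * x) := by
      intro x
      have hcu : ∀ u : ℝ →ᵇ ℝ, Continuous (fun l : ℝ =>
          F (w0 + Real.cosh (L * (l * x)) * u (l * x))) := by
        intro u
        have hu := u.continuous
        apply hF.comp
        apply continuous_const.add
        apply Continuous.mul
        · exact Real.continuous_cosh.comp (by fun_prop)
        · exact hu.comp (by fun_prop)
      have e3 : I u x - I v x = ∫ l in (0:ℝ)..1,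
          (F (w0 + Real.cosh (L * (l * x)) * u (l * x)) -
            F (w0 + Real.cosh (L * (l * x)) * v (l * x))) :=
        (intervalIntegral.integral_sub ((hcu u).intervalIntegrable _ _)
          ((hcu v).intervalIntegrable _ _)).symm
      rw [e3]
      have := intervalIntegral.norm_integral_le_of_norm_le_const (a := (0:ℝ)) (b := 1)
        (C := (Λ * dist u v) * Real.cosh (L * x))
        (f := fun l => F (w0 + Real.cosh (L * (l * x)) * u (l * x)) -
            F (w0 + Real.cosh (L * (l * x)) * v (l * x))) (fun l hl => ?_)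
      · simpa using this
      · rw [uIoc_of_le zero_le_one] at hl
        rw [Real.norm_eq_abs]
        refine (hΛ _ _).trans ?_
        have e4 : w0 + Real.cosh (L * (l * x)) * u (l * x) -
            (w0 + Real.cosh (L * (l * x)) * v (l * x)) =
            Real.cosh (L * (l * x)) * (u (l * x) - v (l * x)) := by ring
        rw [e4, abs_mul, abs_of_pos (Real.cosh_pos _)]
        have h5 : |u (l * x) - v (l * x)| ≤ dist u v := by
          rw [← Real.dist_eq]
          exact BoundedContinuousFunction.dist_coe_le_dist _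
        have h6 := cosh_scale L l x hl.1.le hl.2
        have h7 := Real.cosh_pos (L * (l * x))
        calc Λ * (Real.cosh (L * (l * x)) * |u (l * x) - v (l * x)|)
            ≤ Λ * (Real.cosh (L * x) * dist u v) := by gcongr
          _ = (Λ * dist u v) * Real.cosh (L * x) := by ring
    have h8 := int_cosh_bound L (Λ * dist u v) hL (mul_nonneg hΛ0 hd0) _ hdiff s
    have hc := Real.cosh_pos (L * s)
    rw [abs_mul, abs_mul, abs_of_pos (inv_pos.mpr hc),
      abs_of_pos (by norm_num : (0:ℝ) < 1 / 4)]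
    have h9 : Λ / L ≤ 1 := by
      rw [div_le_one hL]; linarith
    calc (Real.cosh (L * s))⁻¹ * (1 / 4 * |∫ x in (0:ℝ)..s, (I u x - I v x)|)
        ≤ (Real.cosh (L * s))⁻¹ * (1 / 4 * (Λ * dist u v / L * Real.cosh (L * s))) := by
          gcongr
      _ = 1 / 4 * (Λ / L) * dist u v := by field_simp
      _ ≤ 1 / 4 * 1 * dist u v := by gcongr
      _ = ((1 / 4 : NNReal) : ℝ) * dist u v := by
        push_cast; ring
  let u := ContractingWith.fixedPoint T hT
  have hu : T u = u := hT.fixedPoint_isFixedPt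
  refine ⟨fun s => w0 + Real.cosh (L * s) * u s, ?_, ?_⟩
  · apply continuous_const.add
    apply Continuous.mul
    · exact Real.continuous_cosh.comp (by fun_prop)
    · exact u.continuous
  · intro s
    have h1 : u s = (Real.cosh (L * s))⁻¹ * (1 / 4 * ∫ x in (0:ℝ)..s, I u x) := by
      conv_lhs => rw [← hu]
      rfl
    have hc := Real.cosh_pos (L * s)
    show w0 + Real.cosh (L * s) * u s = _
    rw [h1]
    have : Real.cosh (L * s) * ((Real.cosh (L * s))⁻¹ * (1 / 4 * ∫ x in (0:ℝ)..s, I u x)) =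
        1 / 4 * ∫ x in (0:ℝ)..s, I u x := by
      field_simp
    rw [this]

/-- derivative of the solution -/
lemma radial_deriv (F : ℝ → ℝ) (hF : Continuous F) (w0 : ℝ) (w : ℝ → ℝ) (hw : Continuous w)
    (h : ∀ s, w s = w0 + 1 / 4 * ∫ x in (0:ℝ)..s, ∫ l in (0:ℝ)..1, F (w (l * x))) (s : ℝ) :
    HasDerivAt w (1 / 4 * ∫ l in (0:ℝ)..1, F (w (l * s))) s := by
  have hc : Continuous (fun x => ∫ l in (0:ℝ)..1, F (w (l * x))) := by
    have := cont_avg (fun x => F (w x)) (hF.comp hw) 0
    simpa using this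
  have h1 : HasDerivAt (fun s => ∫ x in (0:ℝ)..s, ∫ l in (0:ℝ)..1, F (w (l * x)))
      (∫ l in (0:ℝ)..1, F (w (l * s))) s :=
    intervalIntegral.integral_hasDerivAt_right (hc.intervalIntegrable _ _)
      (hc.stronglyMeasurableAtFilter _ _) hc.continuousAt
  have h2 := (h1.const_mul (1 / 4 : ℝ)).const_add w0
  exact h2.congr_of_eventuallyEq (Filter.Eventually.of_forall h)

/-- smoothness of the solution -/
lemma radial_smooth (F : ℝ → ℝ) (hF : ContDiff ℝ ((⊤ : ℕ∞) : WithTop ℕ∞) F) (w0 : ℝ) (w : ℝ → ℝ)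
    (hw : Continuous w)
    (h : ∀ s, w s = w0 + 1 / 4 * ∫ x in (0:ℝ)..s, ∫ l in (0:ℝ)..1, F (w (l * x))) :
    ContDiff ℝ ((⊤ : ℕ∞) : WithTop ℕ∞) w := by
  rw [contDiff_infty]
  intro n
  induction n with
  | zero => exact contDiff_zero.mpr hw
  | succ n ih =>
    have hd := radial_deriv F hF.continuous w0 w hw h
    have hFn : ContDiff ℝ n F := hF.of_le (by exact_mod_cast le_top)
    have : ContDiff ℝ ((n : WithTop ℕ∞) + 1) w := by
      rw [contDiff_succ_iff_deriv]
      refine ⟨fun x => (hd x).differentiableAt, by simp, ?_⟩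
      have h2 : deriv w = fun s => 1 / 4 * ∫ l in (0:ℝ)..1, F (w (l * s)) := by
        funext x
        exact (hd x).deriv
      rw [h2]
      have h3 := smooth_avg n 0 (fun x => F (w x)) (hFn.comp ih)
      have h4 : ContDiff ℝ n (fun s => ∫ l in (0:ℝ)..1, F (w (l * s))) := by
        simpa using h3
      exact contDiff_const.mul h4
    exact_mod_cast this

/-- `s w'(s) = (1/4) ∫_0^s F(w)` -/
lemma radial_first (F : ℝ → ℝ) (hF : Continuous F) (w0 : ℝ) (w : ℝ → ℝ) (hw : Continuous w)
    (h : ∀ s, w s = w0 + 1 / 4 * ∫ x in (0:ℝ)..s, ∫ l in (0:ℝ)..1, F (w (l * x))) (s : ℝ) :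
    s * deriv w s = 1 / 4 * ∫ x in (0:ℝ)..s, F (w x) := by
  rw [(radial_deriv F hF w0 w hw h s).deriv]
  have h1 := intervalIntegral.smul_integral_comp_mul_left (a := (0:ℝ)) (b := 1)
    (fun x => F (w x)) s
  have h2 : (∫ l in (0:ℝ)..1, F (w (l * s))) = ∫ l in (0:ℝ)..1, F (w (s * l)) := by
    simp_rw [mul_comm]
  rw [h2]
  simp only [smul_eq_mul, mul_zero, mul_one] at h1
  rw [← h1]
  ring

end Pool.Agent.K3h9.GAH
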