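import Pool.Agent.K3h35.GS.Stm
import Pool.Agent.K3h9.GAH.Rad1

/-!
# Brick A: the radial base solution
-/

set_option autoImplicit false
open MeasureTheory Filter Topology Set Metric

namespace Pool.Agent.K3h9.GAH

open Pool.Agent.K3h35.GS

lemma kk_one (a w : ℝ) :
    kk a 1 w = Real.exp (a * (w - Real.exp w)) * (Real.exp w - 1) := by
  simp [kk]

lemma kk_contDiff (a : ℝ) : ContDiff ℝ ((⊤ : ℕ∞) : WithTop ℕ∞) (fun w => kk a 1 w) := by
  have : (fun w => kk a 1 w) =
      fun w => Real.exp (a * (w - Real.exp w)) * (Real.exp w - 1) := funext (kk_one a)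
  rw [this]
  fun_prop

lemma kk_hasDeriv (a w : ℝ) : HasDerivAt (fun w => kk a 1 w)
    (Real.exp (a * (w - Real.exp w)) * (Real.exp w - a * (1 - Real.exp w) ^ 2)) w := by
  have : (fun w => kk a 1 w) =
      fun w => Real.exp (a * (w - Real.exp w)) * (Real.exp w - 1) := funext (kk_one a)
  rw [this]
  have h1 : HasDerivAt (fun w : ℝ => a * (w - Real.exp w)) (a * (1 - Real.exp w)) w :=
    ((hasDerivAt_id w).sub (Real.hasDerivAt_exp w)).const_mul a
  have h2 := h1.exp
  have h3 : HasDerivAt (fun w : ℝ => Real.exp w - 1) (Real.exp w) w :=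
    (Real.hasDerivAt_exp w).sub_const 1
  have h4 := h2.mul h3
  have h5 : Real.exp (a * (w - Real.exp w)) * (a * (1 - Real.exp w)) * (Real.exp w - 1) +
      Real.exp (a * (w - Real.exp w)) * Real.exp w =
      Real.exp (a * (w - Real.exp w)) * (Real.exp w - a * (1 - Real.exp w) ^ 2) := by ring
  rw [h5] at h4
  exact h4

/-- `w ≤ e^w / 2` -/
lemma half_exp (w : ℝ) : w ≤ Real.exp w / 2 := by
  have h1 := Real.add_one_le_exp (w - Real.log 2)
  rw [Real.exp_sub, Real.exp_log (by norm_num)] at h1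
  have h2 := Real.log_two_lt_d9
  linarith

lemma exp_le_half (a w : ℝ) (ha : 0 < a) :
    Real.exp (a * (w - Real.exp w)) ≤ Real.exp (-(a / 2 * Real.exp w)) := by
  apply Real.exp_le_exp.mpr
  have := half_exp w
  nlinarith

lemma small1 (a X : ℝ) (ha : 0 < a) (_hX : 0 ≤ X) : Real.exp (-(a / 2 * X)) * X ≤ 2 / a := by
  have h1 := Real.add_one_le_exp (a / 2 * X)
  rw [Real.exp_neg, ← div_eq_inv_mul, div_le_div_iff₀ (Real.exp_pos _) ha]
  nlinarith

lemma small2 (a X : ℝ) (ha : 0 < a) (hX : 0 ≤ X) :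
    Real.exp (-(a / 2 * X)) * X ^ 2 ≤ 8 / a ^ 2 := by
  have h1 := Real.quadratic_le_exp_of_nonneg (x := a / 2 * X) (by positivity)
  rw [Real.exp_neg, ← div_eq_inv_mul, div_le_div_iff₀ (Real.exp_pos _) (by positivity)]
  have h2 : 0 ≤ a / 2 * X := by positivity
  nlinarith

lemma small0 (a X : ℝ) (ha : 0 < a) (hX : 0 ≤ X) : Real.exp (-(a / 2 * X)) ≤ 1 := by
  rw [Real.exp_le_one_iff]
  have : 0 ≤ a / 2 * X := by positivity
  linarith

lemma kk_bound (a w : ℝ) (ha : 0 < a) : |kk a 1 w| ≤ 2 / a + 1 := by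
  rw [kk_one, abs_mul, abs_of_pos (Real.exp_pos _)]
  set X := Real.exp w with hX
  have hX0 : 0 < X := Real.exp_pos w
  have h1 := exp_le_half a w ha
  have h2 := small1 a X ha hX0.le
  have h3 := small0 a X ha hX0.le
  have h4 : |X - 1| ≤ X + 1 := by
    rw [abs_le]; constructor <;> linarith
  calc Real.exp (a * (w - X)) * |X - 1| ≤ Real.exp (-(a / 2 * X)) * (X + 1) := by gcongr
    _ = Real.exp (-(a / 2 * X)) * X + Real.exp (-(a / 2 * X)) := by ring
    _ ≤ 2 / a + 1 := by linarith

lemma kkd_bound (a w : ℝ) (ha : 0 < a) :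
    |Real.exp (a * (w - Real.exp w)) * (Real.exp w - a * (1 - Real.exp w) ^ 2)| ≤
      2 / a + a * (1 + 2 * (2 / a) + 8 / a ^ 2) := by
  rw [abs_mul, abs_of_pos (Real.exp_pos _)]
  set X := Real.exp w with hX
  have hX0 : 0 < X := Real.exp_pos w
  have h1 := exp_le_half a w ha
  have h2 := small1 a X ha hX0.le
  have h3 := small0 a X ha hX0.le
  have h5 := small2 a X ha hX0.le
  have h4 : |X - a * (1 - X) ^ 2| ≤ X + a * (1 + 2 * X + X ^ 2) := by
    have hs := sq_nonneg (1 - X)
    rw [abs_le]; constructor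
    · nlinarith
    · nlinarith
  calc Real.exp (a * (w - X)) * |X - a * (1 - X) ^ 2|
      ≤ Real.exp (-(a / 2 * X)) * (X + a * (1 + 2 * X + X ^ 2)) := by gcongr
    _ = Real.exp (-(a / 2 * X)) * X + a * (Real.exp (-(a / 2 * X)) +
          2 * (Real.exp (-(a / 2 * X)) * X) + Real.exp (-(a / 2 * X)) * X ^ 2) := by ring
    _ ≤ 2 / a + a * (1 + 2 * (2 / a) + 8 / a ^ 2) := by gcongr

lemma kk_lip (a : ℝ) (ha : 0 < a) (v w : ℝ) :
    |kk a 1 v - kk a 1 w| ≤ (2 / a + a * (1 + 2 * (2 / a) + 8 / a ^ 2)) * |v - w| := by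
  have := Convex.norm_image_sub_le_of_norm_hasDerivWithin_le (f := fun w => kk a 1 w)
    (s := univ) (x := w) (y := v)
    (C := 2 / a + a * (1 + 2 * (2 / a) + 8 / a ^ 2))
    (fun x _ => (kk_hasDeriv a x).hasDerivWithinAt) (fun x _ => kkd_bound a x ha)
    convex_univ (mem_univ _) (mem_univ _)
  simpa using this

/-- the primitive `G` of `-F` -/
noncomputable def GG (a w : ℝ) : ℝ := 1 / a * Real.exp (a * (w - Real.exp w))

lemma GG_deriv (a w : ℝ) (ha : 0 < a) : HasDerivAt (GG a) (-kk a 1 w) w := by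
  have h1 : HasDerivAt (fun w : ℝ => a * (w - Real.exp w)) (a * (1 - Real.exp w)) w :=
    ((hasDerivAt_id w).sub (Real.hasDerivAt_exp w)).const_mul a
  have h2 := h1.exp.const_mul (1 / a)
  rw [kk_one]
  have : 1 / a * (Real.exp (a * (w - Real.exp w)) * (a * (1 - Real.exp w))) =
      -(Real.exp (a * (w - Real.exp w)) * (Real.exp w - 1)) := by
    field_simp
    ring
  rw [this] at h2
  exact h2

lemma GG_pos (a w : ℝ) (ha : 0 < a) : 0 < GG a w := by
  unfold GG; positivity

lemma kk_neg (a w : ℝ) (hw : w < 0) : kk a 1 w < 0 := by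
  rw [kk_one]
  have h1 : Real.exp w < 1 := by rwa [Real.exp_lt_one_iff]
  have := Real.exp_pos (a * (w - Real.exp w))
  nlinarith

lemma kk_ge (a w : ℝ) (ha : 0 < a) (hw : w ≤ 0) : w ≤ kk a 1 w := by
  rw [kk_one]
  have h1 : Real.exp (a * (w - Real.exp w)) ≤ 1 := by
    rw [Real.exp_le_one_iff]
    have := Real.exp_pos w
    nlinarith
  have h2 := Real.add_one_le_exp w
  have h3 : Real.exp w ≤ 1 := by rwa [Real.exp_le_one_iff]
  have h4 := Real.exp_pos (a * (w - Real.exp w))
  nlinarith

lemma GG_mono (a : ℝ) (ha : 0 < a) {v w : ℝ} (hvw : v ≤ w) (hw : w ≤ 0) : GG a v ≤ GG a w := by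
  have h1 : MonotoneOn (GG a) (Iic 0) := by
    apply monotoneOn_of_deriv_nonneg (convex_Iic 0)
    · exact fun x _ => (GG_deriv a x ha).continuousAt.continuousWithinAt
    · exact fun x _ => (GG_deriv a x ha).differentiableAt.differentiableWithinAt
    · intro x hx
      rw [interior_Iic] at hx
      rw [(GG_deriv a x ha).deriv]
      have := kk_neg a x hx
      linarith
  exact h1 (hvw.trans hw) hw hvw


/-! ### the growth argument -/

section growth

variable (a w0 : ℝ) (w : ℝ → ℝ) (hw : Continuous w)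
  (hfix : ∀ s, w s = w0 + 1 / 4 * ∫ x in (0:ℝ)..s, ∫ l in (0:ℝ)..1, kk a 1 (w (l * x)))

include hfix in
lemma w_zero : w 0 = w0 := by
  have := hfix 0
  simpa using this

include hw hfix in
/-- the solution is negative and below its value at zero -/
lemma w_neg (h0 : w0 < 0) : ∀ s, 0 ≤ s → w s < 0 := by
  have hz := w_zero a w0 w hfix
  have hF : Continuous (fun v => kk a 1 v) := (kk_contDiff a).continuous
  intro s hs
  by_contra hcon
  push Not at hcon
  have hcl : IsClosed {x | x ∈ Icc 0 s ∧ 0 ≤ w x} :=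
    isClosed_Icc.inter (isClosed_le continuous_const hw)
  have hK : IsCompact {x | x ∈ Icc 0 s ∧ 0 ≤ w x} :=
    isCompact_Icc.of_isClosed_subset hcl (fun x hx => hx.1)
  obtain ⟨m, ⟨hm1, hm2⟩, hm3⟩ := hK.exists_isLeast ⟨s, ⟨hs, le_rfl⟩, hcon⟩
  have hlt : ∀ x, 0 ≤ x → x < m → w x < 0 := by
    intro x hx hxm
    by_contra hx2
    push Not at hx2
    have := hm3 ⟨⟨hx, hxm.le.trans hm1.2⟩, hx2⟩
    linarith
  have hanti : AntitoneOn w (Icc 0 m) := by
    apply antitoneOn_of_deriv_nonpos (convex_Icc 0 m) hw.continuousOn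
    · exact fun x _ => (radial_deriv _ hF w0 w hw hfix x).differentiableAt.differentiableWithinAt
    · intro x hx
      rw [interior_Icc] at hx
      rw [(radial_deriv _ hF w0 w hw hfix x).deriv]
      have h1 : ∫ l in (0:ℝ)..1, kk a 1 (w (l * x)) ≤ 0 := by
        have h2 : 0 ≤ ∫ l in (0:ℝ)..1, -kk a 1 (w (l * x)) := by
          apply intervalIntegral.integral_nonneg zero_le_one
          intro l hl
          have h3 : w (l * x) < 0 := by
            apply hlt
            · exact mul_nonneg hl.1 hx.1.le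
            · have : l * x ≤ 1 * x := mul_le_mul_of_nonneg_right hl.2 hx.1.le
              linarith [hx.2]
          have := kk_neg a _ h3
          linarith
        rw [intervalIntegral.integral_neg] at h2
        linarith
      linarith
  have := hanti ⟨le_rfl, hm1.1⟩ ⟨hm1.1, le_rfl⟩ hm1.1
  linarith

include hw hfix in
lemma w_anti (h0 : w0 < 0) : AntitoneOn w (Ici 0) := by
  have hF : Continuous (fun v => kk a 1 v) := (kk_contDiff a).continuous
  have hneg := w_neg a w0 w hw hfix h0
  apply antitoneOn_of_deriv_nonpos (convex_Ici 0) hw.continuousOn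
  · exact fun x _ => (radial_deriv _ hF w0 w hw hfix x).differentiableAt.differentiableWithinAt
  · intro x hx
    rw [interior_Ici] at hx
    rw [(radial_deriv _ hF w0 w hw hfix x).deriv]
    have h2 : 0 ≤ ∫ l in (0:ℝ)..1, -kk a 1 (w (l * x)) := by
      apply intervalIntegral.integral_nonneg zero_le_one
      intro l hl
      have := kk_neg a _ (hneg (l * x) (mul_nonneg hl.1 (le_of_lt hx)))
      linarith
    rw [intervalIntegral.integral_neg] at h2
    linarith

include hw hfix in
/-- `w' ≥ w / 4` -/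
lemma w_deriv_ge (ha : 0 < a) (h0 : w0 < 0) (s : ℝ) (hs : 0 ≤ s) : w s / 4 ≤ deriv w s := by
  have hF : Continuous (fun v => kk a 1 v) := (kk_contDiff a).continuous
  rw [(radial_deriv _ hF w0 w hw hfix s).deriv]
  have hneg := w_neg a w0 w hw hfix h0
  have hanti := w_anti a w0 w hw hfix h0
  have h1 : w s ≤ ∫ l in (0:ℝ)..1, kk a 1 (w (l * s)) := by
    have h2 : ∫ _l in (0:ℝ)..1, w s ≤ ∫ l in (0:ℝ)..1, kk a 1 (w (l * s)) := by
      apply intervalIntegral.integral_mono_on zero_le_one
        (continuous_const.intervalIntegrable _ _)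
        (Continuous.intervalIntegrable (hF.comp (hw.comp (by fun_prop))) _ _)
      intro l hl
      have hls : 0 ≤ l * s := mul_nonneg hl.1 hs
      have hls' : l * s ≤ s := by nlinarith [hl.2]
      have h3 := hanti (a := l * s) (b := s) hls hs hls'
      have h4 := kk_ge a _ ha (hneg _ hls).le
      show w s ≤ kk a 1 (w (l * s))
      linarith
    simpa using h2
  linarith

include hw hfix in
/-- `w(s) ≥ w0 e^{s/4}` -/
lemma w_ge_exp (ha : 0 < a) (h0 : w0 < 0) (s : ℝ) (hs : 0 ≤ s) :
    w0 * Real.exp (s / 4) ≤ w s := by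
  have hF : Continuous (fun v => kk a 1 v) := (kk_contDiff a).continuous
  have hd := radial_deriv _ hF w0 w hw hfix
  have hmono : MonotoneOn (fun x => w x * Real.exp (-(x / 4))) (Ici 0) := by
    have hdd : ∀ x, HasDerivAt (fun x => w x * Real.exp (-(x / 4)))
        (deriv w x * Real.exp (-(x / 4)) + w x * (Real.exp (-(x / 4)) * (-(1 / 4)))) x := by
      intro x
      have h1 : HasDerivAt (fun x : ℝ => -(x / 4)) (-(1 / 4)) x :=
        ((hasDerivAt_id x).div_const 4).neg
      have h2 := (hd x).differentiableAt.hasDerivAt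
      exact h2.mul h1.exp
    apply monotoneOn_of_deriv_nonneg (convex_Ici 0)
    · exact fun x _ => (hdd x).continuousAt.continuousWithinAt
    · exact fun x _ => (hdd x).differentiableAt.differentiableWithinAt
    · intro x hx
      rw [interior_Ici] at hx
      rw [(hdd x).deriv]
      have h3 := w_deriv_ge a w0 w hw hfix ha h0 x (le_of_lt hx)
      have h4 := Real.exp_pos (-(x / 4))
      nlinarith
  have h5 := hmono (a := 0) (b := s) (Set.mem_Ici.mpr le_rfl) hs hs
  simp only [zero_div, neg_zero, Real.exp_zero, mul_one] at h5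
  rw [w_zero a w0 w hfix] at h5
  have h6 : Real.exp (-(s / 4)) * Real.exp (s / 4) = 1 := by
    rw [← Real.exp_add]; simp
  have h7 := Real.exp_pos (s / 4)
  calc w0 * Real.exp (s / 4) ≤ w s * Real.exp (-(s / 4)) * Real.exp (s / 4) := by gcongr
    _ = w s := by rw [mul_assoc, h6, mul_one]

/-- `χ(s) = -2 s w'(s)` -/
noncomputable def chi (w : ℝ → ℝ) (s : ℝ) : ℝ := -(2 * (s * deriv w s))

include hw hfix in
lemma chi_eq (s : ℝ) : chi w s = 1 / 2 * ∫ x in (0:ℝ)..s, -kk a 1 (w x) := by
  have hF : Continuous (fun v => kk a 1 v) := (kk_contDiff a).continuous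
  unfold chi
  rw [radial_first _ hF w0 w hw hfix s, intervalIntegral.integral_neg]
  ring

include hw hfix in
lemma chi_deriv (s : ℝ) : HasDerivAt (chi w) (1 / 2 * -kk a 1 (w s)) s := by
  have hF : Continuous (fun v => kk a 1 v) := (kk_contDiff a).continuous
  have hc : Continuous (fun x => -kk a 1 (w x)) := (hF.comp hw).neg
  have h1 : HasDerivAt (fun s => ∫ x in (0:ℝ)..s, -kk a 1 (w x)) (-kk a 1 (w s)) s :=
    intervalIntegral.integral_hasDerivAt_right (hc.intervalIntegrable _ _)
      (hc.stronglyMeasurableAtFilter _ _) hc.continuousAt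
  exact (h1.const_mul (1 / 2 : ℝ)).congr_of_eventuallyEq
    (Filter.Eventually.of_forall (chi_eq a w0 w hw hfix))

include hw hfix in
lemma chi_mono (h0 : w0 < 0) : MonotoneOn (chi w) (Ici 0) := by
  have hneg := w_neg a w0 w hw hfix h0
  have hd := chi_deriv a w0 w hw hfix
  apply monotoneOn_of_deriv_nonneg (convex_Ici 0)
  · exact fun x _ => (hd x).continuousAt.continuousWithinAt
  · exact fun x _ => (hd x).differentiableAt.differentiableWithinAt
  · intro x hx
    rw [interior_Ici] at hx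
    rw [(hd x).deriv]
    have := kk_neg a _ (hneg x (le_of_lt hx))
    linarith

include hw hfix in
/-- the identity `χ² / 2 + s G(w(s)) = ∫_0^s G(w)` -/
lemma identity (ha : 0 < a) (s : ℝ) :
    chi w s ^ 2 / 2 + s * GG a (w s) = ∫ x in (0:ℝ)..s, GG a (w x) := by
  have hF : Continuous (fun v => kk a 1 v) := (kk_contDiff a).continuous
  have hG : Continuous (GG a) :=
    continuous_iff_continuousAt.mpr fun v => (GG_deriv a v ha).continuousAt
  have hGw : Continuous (fun x => GG a (w x)) := hG.comp hw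
  have hd : ∀ x ∈ uIcc 0 s, HasDerivAt (fun x => chi w x ^ 2 / 2 + x * GG a (w x))
      (GG a (w x)) x := by
    intro x _
    have h1 := ((chi_deriv a w0 w hw hfix x).pow 2).div_const 2
    have h2 := (radial_deriv _ hF w0 w hw hfix x).differentiableAt.hasDerivAt
    have h3 := (hasDerivAt_id x).mul ((GG_deriv a (w x) ha).comp x h2)
    have h4 := h1.add h3
    refine h4.congr_deriv ?_
    have h6 : chi w x = -(2 * (x * deriv w x)) := rfl
    simp only [h6, id, Function.comp_apply]
    push_cast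
    ring
  have h5 := intervalIntegral.integral_eq_sub_of_hasDerivAt hd (hGw.intervalIntegrable _ _)
  rw [h5]
  simp [chi]

end growth

end Pool.Agent.K3h9.GAH
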