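import Pool.Agent.K3h9.GAH.Rad2

/-!
# Brick A: the radial base solution, conclusion
-/

set_option autoImplicit false
open MeasureTheory Filter Topology Set Metric

namespace Pool.Agent.K3h9.GAH

open Pool.Agent.K3h35.GS

section growth

variable (a w0 : ℝ) (w : ℝ → ℝ) (hw : Continuous w)
  (hfix : ∀ s, w s = w0 + 1 / 4 * ∫ x in (0:ℝ)..s, ∫ l in (0:ℝ)..1, kk a 1 (w (l * x)))

include hw hfix in
/-- the slope gets large if `w0` is small -/
lemma exists_large (ha : 0 < a) (h0 : w0 < 0) (X ρ : ℝ) (hX : 0 < X) (hρ : 0 < ρ)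
    (hw1 : -1 ≤ w0 * Real.exp (ρ / 4)) (hρX : X ^ 2 / 2 < ρ * GG a (-1)) :
    ∃ s, 0 < s ∧ X ≤ chi w s := by
  have hF : Continuous (fun v => kk a 1 v) := (kk_contDiff a).continuous
  have hG : Continuous (GG a) :=
    continuous_iff_continuousAt.mpr fun v => (GG_deriv a v ha).continuousAt
  have hGw : Continuous (fun x => GG a (w x)) := hG.comp hw
  have hneg := w_neg a w0 w hw hfix h0
  have hanti := w_anti a w0 w hw hfix h0
  have hz := w_zero a w0 w hfix
  by_contra hcon
  push Not at hcon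
  -- chi is between 0 and X
  have hchi0 : ∀ s, 0 ≤ s → 0 ≤ chi w s := by
    intro s hs
    have := chi_mono a w0 w hw hfix h0 (Set.mem_Ici.mpr le_rfl) hs hs
    simpa [chi] using this
  -- the lower bound of the integral
  have hint : ∀ s, 0 ≤ s → s ≤ ρ → GG a (-1) ≤ GG a (w s) := by
    intro s hs hsρ
    apply GG_mono a ha _ (hneg s hs).le
    have h1 := w_ge_exp a w0 w hw hfix ha h0 s hs
    have h2 : Real.exp (s / 4) ≤ Real.exp (ρ / 4) := Real.exp_le_exp.mpr (by linarith)
    nlinarith
  let Y : ℝ → ℝ := fun s => (∫ x in (0:ℝ)..s, GG a (w x)) - X ^ 2 / 2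
  have hYρ : 0 < Y ρ := by
    have h1 : ∫ _x in (0:ℝ)..ρ, GG a (-1) ≤ ∫ x in (0:ℝ)..ρ, GG a (w x) := by
      apply intervalIntegral.integral_mono_on hρ.le (continuous_const.intervalIntegrable _ _)
        (hGw.intervalIntegrable _ _)
      intro x hx
      exact hint x hx.1 hx.2
    simp only [intervalIntegral.integral_const, sub_zero, smul_eq_mul] at h1
    show 0 < (∫ x in (0:ℝ)..ρ, GG a (w x)) - X ^ 2 / 2
    linarith
  have hYd : ∀ s, HasDerivAt Y (GG a (w s)) s := by
    intro s
    have h1 : HasDerivAt (fun s => ∫ x in (0:ℝ)..s, GG a (w x)) (GG a (w s)) s :=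
      intervalIntegral.integral_hasDerivAt_right (hGw.intervalIntegrable _ _)
        (hGw.stronglyMeasurableAtFilter _ _) hGw.continuousAt
    exact h1.sub_const _
  have hYs : ∀ s, 0 < s → Y s ≤ s * GG a (w s) := by
    intro s hs
    have h1 := identity a w0 w hw hfix ha s
    have h2 := hcon s hs
    have h3 := hchi0 s hs.le
    have h4 : chi w s ^ 2 ≤ X ^ 2 := by nlinarith
    show (∫ x in (0:ℝ)..s, GG a (w x)) - X ^ 2 / 2 ≤ _
    linarith
  -- Y s / s is increasing
  have hmono : MonotoneOn (fun s => Y s / s) (Ici ρ) := by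
    have hdd : ∀ x, 0 < x → HasDerivAt (fun s => Y s / s)
        ((GG a (w x) * x - Y x * 1) / x ^ 2) x := by
      intro x hx
      exact (hYd x).div (hasDerivAt_id x) hx.ne'
    apply monotoneOn_of_deriv_nonneg (convex_Ici ρ)
    · exact fun x hx => (hdd x (hρ.trans_le hx)).continuousAt.continuousWithinAt
    · intro x hx
      rw [interior_Ici] at hx
      exact (hdd x (hρ.trans hx)).differentiableAt.differentiableWithinAt
    · intro x hx
      rw [interior_Ici] at hx
      have hx0 : 0 < x := hρ.trans hx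
      rw [(hdd x hx0).deriv]
      have := hYs x hx0
      apply div_nonneg _ (by positivity)
      nlinarith
  set g0 : ℝ := Y ρ / ρ with hg0
  have hg0pos : 0 < g0 := div_pos hYρ hρ
  have hGlow : ∀ s, ρ ≤ s → g0 ≤ GG a (w s) := by
    intro s hs
    have hs0 : 0 < s := hρ.trans_le hs
    have h1 : g0 ≤ Y s / s := hmono (Set.mem_Ici.mpr le_rfl) hs hs
    have h2 := hYs s hs0
    have h3 : Y s / s ≤ GG a (w s) := by
      rw [div_le_iff₀ hs0]; linarith
    linarith
  -- hence F is bounded away from zero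
  set c : ℝ := a * g0 * (1 - Real.exp w0) with hc
  have he0 : Real.exp w0 < 1 := by rwa [Real.exp_lt_one_iff]
  have hcpos : 0 < c := by
    have : 0 < 1 - Real.exp w0 := by linarith
    positivity
  have hFlow : ∀ s, ρ ≤ s → c ≤ -kk a 1 (w s) := by
    intro s hs
    have hs0 : 0 ≤ s := hρ.le.trans hs
    have h1 := hGlow s hs
    have h2 : w s ≤ w0 := by
      have := hanti (Set.mem_Ici.mpr le_rfl) hs0 hs0
      rwa [hz] at this
    have h3 : Real.exp (w s) ≤ Real.exp w0 := Real.exp_le_exp.mpr h2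
    have h4 : -kk a 1 (w s) = a * GG a (w s) * (1 - Real.exp (w s)) := by
      rw [kk_one, GG]
      field_simp
      ring
    rw [h4, hc]
    have h5 : 0 ≤ 1 - Real.exp w0 := by linarith
    have h6 : 1 - Real.exp w0 ≤ 1 - Real.exp (w s) := by linarith
    have h7 : a * g0 ≤ a * GG a (w s) := by nlinarith
    exact mul_le_mul h7 h6 h5 (by have := GG_pos a (w s) ha; positivity)
  have hchi_low : ∀ s, ρ ≤ s → 1 / 2 * (c * (s - ρ)) ≤ chi w s := by
    intro s hs
    have hcF : Continuous (fun x => -kk a 1 (w x)) := (hF.comp hw).neg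
    rw [chi_eq a w0 w hw hfix s]
    have h1 : ∫ x in (0:ℝ)..s, -kk a 1 (w x) =
        (∫ x in (0:ℝ)..ρ, -kk a 1 (w x)) + ∫ x in ρ..s, -kk a 1 (w x) :=
      (intervalIntegral.integral_add_adjacent_intervals (hcF.intervalIntegrable _ _)
        (hcF.intervalIntegrable _ _)).symm
    have h2 : 0 ≤ ∫ x in (0:ℝ)..ρ, -kk a 1 (w x) := by
      apply intervalIntegral.integral_nonneg hρ.le
      intro x hx
      have := kk_neg a _ (hneg x hx.1)
      linarith
    have h3 : ∫ _x in ρ..s, c ≤ ∫ x in ρ..s, -kk a 1 (w x) := by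
      apply intervalIntegral.integral_mono_on hs (continuous_const.intervalIntegrable _ _)
        (hcF.intervalIntegrable _ _)
      intro x hx
      exact hFlow x hx.1
    simp only [intervalIntegral.integral_const, smul_eq_mul] at h3
    rw [h1]
    nlinarith
  -- contradiction
  have hs : ρ ≤ ρ + 2 * X / c := by
    have : 0 < 2 * X / c := by positivity
    linarith
  have h1 := hchi_low _ hs
  have h2 := hcon (ρ + 2 * X / c) (hρ.trans_le hs)
  have h3 : 1 / 2 * (c * (ρ + 2 * X / c - ρ)) = X := by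
    field_simp
    ring
  rw [h3] at h1
  linarith

include hw hfix in
/-- the decay -/
lemma decay_of_large (h0 : w0 < 0) (Q s1 : ℝ) (hQ : 0 < Q) (hs1 : 0 < s1)
    (hX : 2 * Q ≤ chi w s1) (s : ℝ) (hs : 0 ≤ s) :
    Real.exp (w s) ≤ (1 + s1) ^ Q * (1 + s) ^ (-Q) := by
  have hF : Continuous (fun v => kk a 1 v) := (kk_contDiff a).continuous
  have hneg := w_neg a w0 w hw hfix h0
  have hd := radial_deriv _ hF w0 w hw hfix
  rcases le_total s s1 with h | h
  · have h1 : Real.exp (w s) ≤ 1 := by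
      rw [Real.exp_le_one_iff]; exact (hneg s hs).le
    have h2 : (1 + s) ^ Q ≤ (1 + s1) ^ Q := Real.rpow_le_rpow (by linarith) (by linarith) hQ.le
    have h3 : (0:ℝ) < (1 + s) ^ Q := Real.rpow_pos_of_pos (by linarith) _
    rw [Real.rpow_neg (by linarith)]
    have h4 : 1 ≤ (1 + s1) ^ Q * ((1 + s) ^ Q)⁻¹ := by
      rw [← div_eq_mul_inv, one_le_div h3]
      exact h2
    linarith
  · have hs0 : 0 < s := hs1.trans_le h
    -- w + Q log is antitone on [s1, oo)
    have hanti : AntitoneOn (fun x => w x + Q * Real.log x) (Ici s1) := by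
      have hdd : ∀ x, 0 < x → HasDerivAt (fun x => w x + Q * Real.log x)
          (deriv w x + Q * x⁻¹) x := by
        intro x hx
        exact (hd x).differentiableAt.hasDerivAt.add ((Real.hasDerivAt_log hx.ne').const_mul Q)
      apply antitoneOn_of_deriv_nonpos (convex_Ici s1)
      · exact fun x hx => (hdd x (hs1.trans_le hx)).continuousAt.continuousWithinAt
      · intro x hx
        rw [interior_Ici] at hx
        exact (hdd x (hs1.trans hx)).differentiableAt.differentiableWithinAt
      · intro x hx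
        rw [interior_Ici] at hx
        have hx0 : 0 < x := hs1.trans hx
        rw [(hdd x hx0).deriv]
        have h1 := chi_mono a w0 w hw hfix h0 (Set.mem_Ici.mpr hs1.le)
          (Set.mem_Ici.mpr hx0.le) (le_of_lt hx)
        have h2 : 2 * Q ≤ -(2 * (x * deriv w x)) := hX.trans h1
        have h3 : deriv w x + Q * x⁻¹ = (x * deriv w x + Q) / x := by
          field_simp
        rw [h3]
        apply div_nonpos_of_nonpos_of_nonneg _ hx0.le
        linarith
    have h1 := hanti (Set.mem_Ici.mpr le_rfl) (Set.mem_Ici.mpr h) h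
    simp only at h1
    have h2 : w s ≤ Q * Real.log s1 - Q * Real.log s := by
      have := hneg s1 hs1.le
      linarith
    have h3 : Real.exp (w s) ≤ s1 ^ Q / s ^ Q := by
      rw [Real.rpow_def_of_pos hs1, Real.rpow_def_of_pos hs0, ← Real.exp_sub]
      apply Real.exp_le_exp.mpr
      linarith
    refine h3.trans ?_
    rw [Real.rpow_neg (by linarith), ← div_eq_mul_inv, ← Real.div_rpow hs1.le hs0.le,
      ← Real.div_rpow (by linarith) (by linarith)]
    apply Real.rpow_le_rpow (by positivity) _ hQ.le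
    rw [div_le_div_iff₀ hs0 (by linarith)]
    nlinarith

end growth

/-- Brick A -/
theorem t_A : St_A := by
  intro a Q ha hQ
  have hGm : 0 < GG a (-1) := GG_pos a (-1) ha
  set X : ℝ := 2 * Q with hX
  have hX0 : 0 < X := by positivity
  set ρ : ℝ := X ^ 2 / GG a (-1) with hρdef
  have hρ : 0 < ρ := by positivity
  have hρX : X ^ 2 / 2 < ρ * GG a (-1) := by
    have : ρ * GG a (-1) = X ^ 2 := by rw [hρdef]; field_simp
    rw [this]
    have : 0 < X ^ 2 := by positivity
    linarith
  set w0 : ℝ := -Real.exp (-(ρ / 4)) with hw0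
  have h0 : w0 < 0 := by
    have := Real.exp_pos (-(ρ / 4))
    linarith
  have hw1 : -1 ≤ w0 * Real.exp (ρ / 4) := by
    have : w0 * Real.exp (ρ / 4) = -(Real.exp (-(ρ / 4)) * Real.exp (ρ / 4)) := by
      rw [hw0]; ring
    rw [this, ← Real.exp_add]
    simp
  obtain ⟨w, hw, hfix⟩ := exists_radial (fun v => kk a 1 v) (kk_contDiff a).continuous
    (2 / a + 1) (2 / a + a * (1 + 2 * (2 / a) + 8 / a ^ 2)) (fun v => kk_bound a v ha)
    (kk_lip a ha) w0
  have hF : Continuous (fun v => kk a 1 v) := (kk_contDiff a).continuous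
  obtain ⟨s1, hs1, hs1X⟩ := exists_large a w0 w hw hfix ha h0 X ρ hX0 hρ hw1 hρX
  have hsm : ContDiff ℝ ((⊤ : ℕ∞) : WithTop ℕ∞) w :=
    radial_smooth (fun v => kk a 1 v) (kk_contDiff a) w0 w hw hfix
  refine ⟨w, hsm, ?_, w_neg a w0 w hw hfix h0, (1 + s1) ^ Q,
    Real.rpow_pos_of_pos (by linarith) _, fun s hs =>
      decay_of_large a w0 w hw hfix h0 Q s1 hQ hs1 hs1X s hs⟩
  intro s
  have hd2 : Differentiable ℝ (deriv w) := by
    have h2 : ContDiff ℝ 2 w := by exact_mod_cast contDiff_infty.mp hsm 2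
    have h3 : ContDiff ℝ ((1 : WithTop ℕ∞) + 1) w := by
      have : (1 : WithTop ℕ∞) + 1 = 2 := by norm_num
      rw [this]; exact h2
    exact (contDiff_succ_iff_deriv.mp h3).2.2.differentiable (by norm_num)
  have h1 : HasDerivAt (fun s => s * deriv w s) (1 * deriv w s + s * deriv (deriv w) s) s :=
    (hasDerivAt_id s).mul (hd2 s).hasDerivAt
  have hc : Continuous (fun x => kk a 1 (w x)) := hF.comp hw
  have h2 : HasDerivAt (fun s => 1 / 4 * ∫ x in (0:ℝ)..s, kk a 1 (w x))
      (1 / 4 * kk a 1 (w s)) s :=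
    (intervalIntegral.integral_hasDerivAt_right (hc.intervalIntegrable _ _)
      (hc.stronglyMeasurableAtFilter _ _) hc.continuousAt).const_mul (1 / 4 : ℝ)
  have h3 : (fun s => s * deriv w s) = fun s => 1 / 4 * ∫ x in (0:ℝ)..s, kk a 1 (w x) :=
    funext (radial_first _ hF w0 w hw hfix)
  rw [h3] at h1
  have h4 := h1.unique h2
  linarith

end Pool.Agent.K3h9.GAH
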